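import Pool.Agent.Z15.J.Stm

/-!
Residue fields: `T_ABH`.
-/

set_option autoImplicit false

open FF MvPolynomial Pool.Agent.Z15.H Pool.Agent.Z15.J

namespace Pool.Agent.T2h99.J

section

variable {K E : Type} [Field K] [Field E] [Algebra K E] (t : Place K E)

theorem reg_aeval {κ : Type} {e : κ → E} (h : ∀ i, t.Reg (e i)) (G : MvPolynomial κ K) :
    t.Reg (aeval e G) ∧ t.red (aeval e G) = aeval (fun i => t.red (e i)) G := by
  induction G using MvPolynomial.induction_on with
  | C a =>
    rw [aeval_C, aeval_C]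
    exact ⟨t.reg_const a, rfl⟩
  | add p q hp hq =>
    rw [map_add, map_add, t.red_add hp.1 hq.1, hp.2, hq.2]
    exact ⟨t.reg_add hp.1 hq.1, rfl⟩
  | mul_X p i hp =>
    rw [map_mul, map_mul, aeval_X, aeval_X, t.red_mul hp.1 (h i), hp.2]
    exact ⟨t.reg_mul hp.1 (h i), rfl⟩

theorem ord_zero_of_red {x : E} (hx : t.Reg x) (h : t.red x ≠ 0) : x ≠ 0 ∧ t.ord x = 0 := by
  have h2 : x ≠ 0 := by
    rintro rfl
    exact h t.red_zero
  refine ⟨h2, ?_⟩
  have h4 := (t.reg_iff h2).1 hx
  by_contra h5
  exact h ((t.red_eq_zero_iff hx).2 (Or.inr (by omega)))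

/-- lifts of algebraically independent elements -/
theorem lift_indep {σ : Type} {U : σ → E} (hU : ∀ i, t.Reg (U i))
    (hu : AlgebraicIndependent K fun i => t.red (U i)) : AlgebraicIndependent K U := by
  rw [algebraicIndependent_iff]
  intro p hp
  have h1 := (reg_aeval t hU p).2
  rw [hp, t.red_zero] at h1
  exact (algebraicIndependent_iff.1 hu) p h1.symm

/-- the place is trivial on the field generated by the lifts -/
theorem ord_lift {σ : Type} {U : σ → E} (hU : ∀ i, t.Reg (U i))
    (hu : AlgebraicIndependent K fun i => t.red (U i)) (c : E)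
    (hc : c ∈ IntermediateField.adjoin K (Set.range U)) (hc0 : c ≠ 0) : t.ord c = 0 := by
  obtain ⟨r, s, hrs⟩ := (IntermediateField.mem_adjoin_range_iff K U c).1 hc
  have h1 : ∀ p : MvPolynomial σ K, aeval U p ≠ 0 → t.ord (aeval U p) = 0 := by
    intro p hp
    refine (ord_zero_of_red t (reg_aeval t hU p).1 ?_).2
    rw [(reg_aeval t hU p).2]
    intro h0
    apply hp
    rw [(algebraicIndependent_iff.1 hu) p h0, map_zero]
  have hr : aeval U r ≠ 0 := by
    intro h0
    apply hc0
    rw [hrs, h0, zero_div]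
  have hs : aeval U s ≠ 0 := by
    intro h0
    apply hc0
    rw [hrs, h0, div_zero]
  rw [hrs, t.ord_div hr hs, h1 r hr, h1 s hs, sub_zero]

/-- the place as a place over a subfield on which it is trivial -/
def upPlace (L : IntermediateField K E) (h : ∀ c : E, c ∈ L → c ≠ 0 → t.ord c = 0) : Place L E where
  ord := t.ord
  ord_zero := t.ord_zero
  ord_mul := t.ord_mul
  ord_add := t.ord_add
  ord_const := fun {c} hc => h c c.2 (fun h0 => hc (Subtype.ext h0))
  surj := t.surj

/-- there are fewer than `n` algebraically independent residues -/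
theorem trdeg_lt (n : ℕ) (hn : Algebra.trdeg K E = n) : Algebra.trdeg K t.RF < n := by
  by_contra hc
  push Not at hc
  obtain ⟨s, hs⟩ := exists_isTranscendenceBasis K t.RF
  rw [← hs.cardinalMk_eq_trdeg, ← Cardinal.mk_fin, Cardinal.le_def] at hc
  obtain ⟨f⟩ := hc
  have hu : AlgebraicIndependent K fun i => ((f i : s) : t.RF) := hs.1.comp f f.injective
  choose U hU hUr using fun i => t.red_surjective ((f i : s) : t.RF)
  have hu' : AlgebraicIndependent K fun i => t.red (U i) := by
    have : (fun i => t.red (U i)) = fun i => ((f i : s) : t.RF) := funext hUr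
    rw [this]
    exact hu
  have hUi := lift_indep t hU hu'
  have hb : IsTranscendenceBasis K U := hUi.isTranscendenceBasis_of_trdeg_le_of_finite (by
    rw [hn, Cardinal.mk_fin])
  have halg : Algebra.IsAlgebraic (IntermediateField.adjoin K (Set.range U)) E := hb.isAlgebraic_field
  obtain ⟨x, hx0, hx⟩ := t.surj
  have h1 := (upPlace t (IntermediateField.adjoin K (Set.range U)) (ord_lift t hU hu')).ord_eq_zero_of_isAlgebraic
    hx0 (Algebra.IsAlgebraic.isAlgebraic x)
  have h2 : t.ord x = 0 := h1
  omega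

end

theorem t_ABH : Pool.Agent.Z15.J.Stm.T_ABH := by
  intro K _ _ E _ _ n hn t
  have h := trdeg_lt t n hn
  obtain ⟨m, hm⟩ := Cardinal.lt_aleph0.1 (h.trans (Cardinal.natCast_lt_aleph0 (n := n)))
  refine ⟨m, ?_, hm⟩
  rw [hm] at h
  exact_mod_cast h

end Pool.Agent.T2h99.J
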