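import Pool.Agent.T2h99.J.StmH
import Pool.Agent.T2h99.J.Abh
import Pool.Agent.T2h64.H15.CYC

/-!
Families of lines and rational equivalence: `T_TRh`.
-/

set_option autoImplicit false

open FF MvPolynomial Pool.Agent.Z15.H Pool.Agent.Z15.J Pool.Agent.Z15.J.Stm

namespace Pool.Agent.T2h99.J

section

variable (K0 : Type) {K1 M : Type} [Field K0] [Field K1] [Field M] [Algebra K0 K1] [Algebra K1 M] [Algebra K0 M]
  [IsScalarTower K0 K1 M]

/-- a place over `K1` as a place over `K0` -/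
def dn (v : Place K1 M) : Place K0 M where
  ord := v.ord
  ord_zero := v.ord_zero
  ord_mul := v.ord_mul
  ord_add := v.ord_add
  ord_const := fun {c} hc => by
    rw [IsScalarTower.algebraMap_apply K0 K1 M]
    exact v.ord_const (by rwa [Ne, map_eq_zero])
  surj := v.surj

variable {K0}

/-- a place over `K0` which is trivial on `K1` as a place over `K1` -/
def up (t : Place K0 M) (h : ∀ x : K1, t.ord (algebraMap K1 M x) = 0) : Place K1 M where
  ord := t.ord
  ord_zero := t.ord_zero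
  ord_mul := t.ord_mul
  ord_add := t.ord_add
  ord_const := fun {c} _ => h c
  surj := t.surj

variable (K0)

/-- the residue field as an algebra over `K0` -/
@[reducible] noncomputable def algRF (v : Place K1 M) : Algebra K0 v.RF :=
  inferInstanceAs (Algebra K0 (dn K0 v).RF)

theorem towRF (v : Place K1 M) : letI := algRF K0 v; IsScalarTower K0 K1 v.RF := by
  let _ := algRF K0 v
  refine IsScalarTower.of_algebraMap_eq fun x => ?_
  show (dn K0 v).red (algebraMap K0 M x) = v.red (algebraMap K1 M (algebraMap K0 K1 x))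
  rw [← IsScalarTower.algebraMap_apply K0 K1 M]
  rfl

theorem red_scale_zero {ν : Type} {v : Place K1 M} {Q : ν → M} {R : ν → v.RF} (hR : IsRed v Q R)
    {G : MvPolynomial ν K1} {d : ℕ} (hG : G.IsHomogeneous d) (hQ : aeval Q G = 0) : aeval R G = 0 := by
  obtain ⟨_, c, hc0, hc⟩ := hR
  have h1 := (reg_aeval v (fun i => (hc i).1) G).2
  have h2 : (fun i => v.red (c * Q i)) = R := funext fun i => (hc i).2
  rw [h2, Pool.Agent.T2h64.H15.aeval_scale Q c hG, hQ, mul_zero, v.red_zero] at h1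
  exact h1.symm

/-- the limit of the family of lines at a place over `K1` -/
theorem lim_fam {ι ν : Type} [Fintype ν] {v : Place K1 M} {Q : ν → M} {R : ν → v.RF} (hR : IsRed v Q R)
    (z : ι → K1) (φ : ν → ι → K1) (a b : ι → v.RF) (ha : a = cst v.RF z) (hb : b = lm φ R)
    (hli : LinearIndependent v.RF ![a, b]) :
    Pool.Agent.Z15.J.IsLim (dn K0 v) (cst M z) (lm φ Q) a b := by
  obtain ⟨_, c, hc0, hc⟩ := hR
  subst ha hb
  refine ⟨hli, 1, 0, 0, c, by simpa using hc0, fun i => ?_, fun i => ?_⟩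
  · have h1 : (1 : M) * cst M z i + 0 * lm φ Q i = algebraMap K1 M (z i) := by
      unfold cst
      ring
    rw [h1]
    exact ⟨v.reg_const (z i), rfl⟩
  · have h1 : (0 : M) * cst M z i + c * lm φ Q i = aeval (fun j => c * Q j) (∑ j, X j * C (φ j i)) := by
      unfold lm
      rw [map_sum, zero_mul, zero_add, Finset.mul_sum]
      refine Finset.sum_congr rfl fun j _ => ?_
      rw [map_mul, aeval_X, algHom_C, mul_assoc]
    have h2 := reg_aeval v (fun i => (hc i).1) (∑ j, X j * C (φ j i))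
    rw [h1]
    refine ⟨h2.1, h2.2.trans ?_⟩
    have h3 : (fun i => v.red (c * Q i)) = R := funext fun i => (hc i).2
    rw [h3, map_sum]
    unfold lm
    refine Finset.sum_congr rfl fun j _ => ?_
    rw [map_mul, aeval_X, algHom_C]

end

theorem t_TRih : T_G → T_GFIN → T_CYC2 → T_LIM2 → T_TRh := by
  intro hGs hGf hC hL K0 K1 _ _ _ _ ι ν _ _ δ q hK1 F G d hG z φ hz hgood Φ hΦ M _ _ Q h D hM hQ0 hQ hh hD
  classical
  let _ : Algebra K0 M := ((algebraMap K1 M).comp (algebraMap K0 K1)).toAlgebra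
  have htow : IsScalarTower K0 K1 M := IsScalarTower.of_algebraMap_eq fun x => rfl
  have hc1 : CharZero K1 := charZero_of_injective_algebraMap (algebraMap K0 K1).injective
  obtain ⟨T, R, hR, hT, rfl⟩ := hD
  have hFG : IsFG (q + δ + 1) K0 M := by
    constructor
    · have := hK1.1
      have := hM.1
      exact Algebra.EssFiniteType.comp K0 K1 M
    · rw [← trdeg_add_eq K0 K1 (A := M), hK1.2, hM.2]
      norm_cast
      ring
  have hli : LinearIndependent M ![cst M z, lm φ Q] := hgood.1 M Q hQ0 hQ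
  have hvan : Vanish F (cst M z) (lm φ Q) := hgood.2 M Q hQ
  -- the limits
  have hlim : ∀ t : Place K0 M, ∃ ab : (ι → t.RF) × (ι → t.RF), IsLim t (cst M z) (lm φ Q) ab.1 ab.2 := by
    intro t
    obtain ⟨a, b, p, r, s, -, -, -, -, -, h1⟩ := (hL K0 ι M (cst M z) (lm φ Q) hli t).1
    exact ⟨(a, b), h1⟩
  choose ab hab using hlim
  have hfin := hGf K0 ι M (q + δ + 1) hFG (cst M z) (lm φ Q) hli h (fun t => (ab t).1) (fun t => (ab t).2) hh hab
  set T2 := hfin.toFinset with hT2
  have hmem2 : ∀ t, t ∈ T2 ↔ Algebra.trdeg K0 t.RF + 1 = ((q + δ + 1 : ℕ) : Cardinal) ∧ t.ord h ≠ 0 ∧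
      cyc K0 (gen (ab t).1 (ab t).2) ≠ 0 := fun t => by
    rw [hT2, Set.Finite.mem_toFinset]
    rfl
  have hsum := hGs K0 ι M (q + δ + 1) hFG F (cst M z) (lm φ Q) hli hvan h T2 (fun t => (ab t).1)
    (fun t => (ab t).2) hh hab (fun t ht => ((hmem2 t).1 ht).1) (fun t h1 h2 h3 => (hmem2 t).2 ⟨h1, h2, h3⟩)
  -- the classes at the places over `K1`
  have hcls : ∀ v : Place K1 M, Φ (cyc K1 (R v)) = cyc K0 (gen (ab (dn K0 v)).1 (ab (dn K0 v)).2) := by
    intro v
    let _ := algRF K0 v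
    have := towRF K0 v
    rw [hΦ v.RF (R v) (hR v).1]
    have hz := red_scale_zero (hR v) hG hQ
    have hli' := hgood.1 v.RF (R v) (hR v).1 hz
    have h1 := lim_fam K0 (hR v) z φ _ _ rfl rfl hli'
    have h2 := (hL K0 ι M (cst M z) (lm φ Q) hli (dn K0 v)).2.2.1 _ _ _ _ (hab (dn K0 v)) h1
    exact (hC K0 ι (dn K0 v).RF).2.2.2.2.2.2.1 _ _ _ _ (hab (dn K0 v)).1 hli' h2.1 h2.2
  -- transcendence degrees
  have htr : ∀ v : Place K1 M, Algebra.trdeg K0 (dn K0 v).RF = δ + Algebra.trdeg K1 v.RF := by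
    intro v
    let _ := algRF K0 v
    have := towRF K0 v
    rw [← hK1.2, trdeg_add_eq K0 K1 (A := v.RF)]
    rfl
  have hcast : ((q + δ + 1 : ℕ) : Cardinal.{0}) = ((q + δ : ℕ) : Cardinal.{0}) + 1 := by push_cast; ring
  rw [map_sum]
  have e1 : ∑ v ∈ T, Φ (v.ord h • cyc K1 (R v)) =
      ∑ t ∈ T2.filter (fun t => ∀ x : K1, t.ord (algebraMap K1 M x) = 0),
        t.ord h • cyc K0 (gen (ab t).1 (ab t).2) := by
    refine Finset.sum_bij_ne_zero (fun v _ _ => dn K0 v) ?_ ?_ ?_ ?_
    · intro v hv hne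
      rw [map_zsmul, hcls] at hne
      refine Finset.mem_filter.2 ⟨(hmem2 _).2 ⟨?_, ((hT v).1 hv).2.1, ?_⟩, fun x => ?_⟩
      · rw [htr, ((hT v).1 hv).1]
        push_cast
        ring
      · intro h0
        apply hne
        rw [h0, smul_zero]
      · by_cases hx : x = 0
        · rw [hx, map_zero]
          exact v.ord_zero
        · exact v.ord_const hx
    · intro v _ _ v' _ _ hvv
      have h1 : (dn K0 v).ord = (dn K0 v').ord := congrArg Place.ord hvv
      exact Place.ext h1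
    · intro t ht hne
      obtain ⟨ht2, ht3⟩ := Finset.mem_filter.1 ht
      obtain ⟨h1, h2, h3⟩ := (hmem2 t).1 ht2
      have hdn : dn K0 (up t ht3) = t := rfl
      have hcl : Φ (cyc K1 (R (up t ht3))) = cyc K0 (gen (ab t).1 (ab t).2) := hcls (up t ht3)
      refine ⟨up t ht3, (hT _).2 ⟨?_, h2, ?_⟩, ?_, hdn⟩
      · have h4 := htr (up t ht3)
        rw [hdn] at h4
        rw [h4, hcast, Cardinal.add_one_inj] at h1
        push_cast at h1
        rw [add_comm] at h1
        exact (Cardinal.add_right_inj_of_lt_aleph0 (Cardinal.natCast_lt_aleph0 (n := δ))).1 h1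
      · intro h0
        apply h3
        rw [← hcl, h0, map_zero]
      · rw [map_zsmul, hcl]
        exact hne
    · intro v _ _
      rw [map_zsmul, hcls]
      rfl
  have e2 := Finset.sum_filter_add_sum_filter_not T2 (fun t => ∀ x : K1, t.ord (algebraMap K1 M x) = 0)
    (fun t => t.ord h • cyc K0 (gen (ab t).1 (ab t).2))
  have e3 : ∑ t ∈ T2.filter (fun t => ¬ ∀ x : K1, t.ord (algebraMap K1 M x) = 0),
      t.ord h • cyc K0 (gen (ab t).1 (ab t).2) ∈ AddSubgroup.closure (VT K0 (q + δ) G z φ) := by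
    refine sum_mem fun t ht => zsmul_mem (AddSubgroup.subset_closure ?_) _
    obtain ⟨ht2, ht3⟩ := Finset.mem_filter.1 ht
    obtain ⟨h1, -, -⟩ := (hmem2 t).1 ht2
    push Not at ht3
    rw [hcast, Cardinal.add_one_inj] at h1
    exact ⟨M, _, _, _, htow, t, Q, (ab t).1, (ab t).2, hQ0, hQ, ht3, h1, hab t, rfl⟩
  rw [e1, eq_sub_of_add_eq e2]
  exact sub_mem (AddSubgroup.mem_sup_left hsum) (AddSubgroup.mem_sup_right e3)

theorem t_Uih : T_TRh → T_Uh := by
  intro hTR K0 K1 _ _ _ _ ι ν _ _ δ q hK1 F G d hG z φ hz hgood Φ hΦ D hD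
  induction hD using AddSubgroup.closure_induction with
  | mem D hD =>
    obtain ⟨M, _, _, Q, h, hM, hQ0, hQ, hh, hD⟩ := hD
    exact hTR K0 K1 ι ν δ q hK1 F G d hG z φ hz hgood Φ hΦ M Q h D hM hQ0 hQ hh hD
  | zero => rw [map_zero]; exact zero_mem _
  | add x y _ _ hx hy => rw [map_add]; exact add_mem hx hy
  | neg x _ hx => rw [map_neg]; exact neg_mem hx

theorem t_CONEih : T_Uh → T_CONEh := by
  intro hU K _ _ ι ν _ _ q F G d hG z φ hz hgood Φ hΦ D hD
  have hK : IsFG 0 K K := by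
    refine ⟨inferInstance, ?_⟩
    rw [trdeg_eq_zero, Nat.cast_zero]
  have h1 := hU K K ι ν 0 q hK F G d hG z φ hz hgood Φ hΦ D hD
  have h2 : VT K (q + 0) G z φ = ∅ := by
    rw [Set.eq_empty_iff_forall_notMem]
    rintro c ⟨M, _, a1, a0, htow, t, Q, a, b, _, _, ⟨x, hx⟩, _⟩
    apply hx
    by_cases hx0 : x = 0
    · rw [hx0, map_zero]
      exact t.ord_zero
    · have h3 := t.ord_const hx0
      have h4 : @algebraMap K M _ _ a0 x = @algebraMap K M _ _ a1 x :=
        @IsScalarTower.algebraMap_apply K K M _ _ _ _ a1 a0 htow x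
      rw [h4] at h3
      exact h3
  rw [h2, AddSubgroup.closure_empty, sup_bot_eq] at h1
  exact h1

end Pool.Agent.T2h99.J
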