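import Pool.Agent.Z15.J.Stm
import Pool.Agent.T2h64.H15.CYC

/-!
Facts on the cycle of a point: `T_CYC2`.
-/

set_option autoImplicit false

open FF MvPolynomial Pool.Agent.Z15.H Pool.Agent.Z15.J Pool.Agent.T2h64.H15

namespace Pool.Agent.T2h99.J

section

variable {K : Type} [Field K] {ι E : Type} [Field E] [Algebra K E]

/-- (4) -/
theorem cyc_fin [Finite ι] (P : ι → E) (h : cyc K P ≠ 0) :
    Algebra.EssFiniteType K E ∧ Algebra.IsAlgebraic (ratioField K P) E := by
  have h1 : Module.finrank (ratioField K P) E ≠ 0 := by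
    intro h0
    apply h
    unfold cyc
    rw [h0]
    simp
  have h2 : Module.Finite (ratioField K P) E := Module.finite_of_finrank_pos (Nat.pos_of_ne_zero h1)
  refine ⟨?_, inferInstance⟩
  have h3 : (ratioField K P).FG := by
    have hf : {z : E | ∃ i j, z = P i / P j}.Finite := by
      have : {z : E | ∃ i j, z = P i / P j} = Set.range fun x : ι × ι => P x.1 / P x.2 := by
        ext z
        simp only [Set.mem_ofPred_eq, Set.mem_range, Prod.exists, eq_comm]
      rw [this]
      exact Set.finite_range _
    exact IntermediateField.fg_def.2 ⟨_, hf, rfl⟩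
  have h4 : Algebra.EssFiniteType K (ratioField K P) := IntermediateField.essFiniteType_iff.2 h3
  exact Algebra.EssFiniteType.comp K (ratioField K P) E

/-- (6) -/
theorem cyc_const' (h : Algebra.trdeg K E ≠ 0) (p : ι → K) : cyc K (fun i => algebraMap K E (p i)) = 0 := by
  unfold cyc
  have h1 : ratioField K (fun i => algebraMap K E (p i)) = ⊥ := by
    unfold ratioField
    rw [IntermediateField.adjoin_eq_bot_iff]
    rintro _ ⟨i, j, rfl⟩
    rw [← map_div₀]
    exact IntermediateField.algebraMap_mem _ _
  have h3 : Module.finrank K E = 0 := by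
    refine Module.finrank_of_not_finite fun hf => h ?_
    exact trdeg_eq_zero
  rw [h1, IntermediateField.finrank_bot', h3]
  simp

/-- (8) -/
theorem cyc_gen {M : Type} [Field M] [Algebra K M] [Algebra E M] [IsScalarTower K E M] (θ : M)
    (hθ : Transcendental E θ) (hθ' : IntermediateField.adjoin E {θ} = ⊤) (a b : ι → E) :
    cyc K (fun i => algebraMap E M (a i) + θ * algebraMap E M (b i)) = cyc K (gen a b) := by
  set e : RatFunc E ≃ₐ[E] IntermediateField.adjoin E {θ} := RatFunc.algEquivOfTranscendental θ hθ with he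
  set φ : RatFunc E →ₐ[K] M :=
    (((IntermediateField.adjoin E {θ}).val.comp (e : RatFunc E →ₐ[E] _)).restrictScalars K) with hφ
  have h1 : Function.Surjective φ := by
    intro y
    have hy : y ∈ IntermediateField.adjoin E {θ} := by rw [hθ']; trivial
    obtain ⟨x, hx⟩ := e.surjective ⟨y, hy⟩
    refine ⟨x, ?_⟩
    show ((e x : IntermediateField.adjoin E {θ}) : M) = y
    rw [hx]
  rw [← cyc_equiv φ h1 (gen a b)]
  congr 1
  funext i
  unfold gen
  rw [map_add, map_mul]
  have h2 : ∀ c : E, φ (algebraMap E (RatFunc E) c) = algebraMap E M c := by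
    intro c
    show ((e (algebraMap E (RatFunc E) c) : IntermediateField.adjoin E {θ}) : M) = _
    rw [e.commutes]
    rfl
  have h3 : φ RatFunc.X = θ := by
    show ((e RatFunc.X : IntermediateField.adjoin E {θ}) : M) = _
    rw [he, RatFunc.algEquivOfTranscendental_X]
  rw [h2, h2, h3]

/-- (7) -/
theorem cyc_span (a b a' b' : ι → E) (h' : LinearIndependent E ![a', b'])
    (ha : a' ∈ Submodule.span E {a, b}) (hb : b' ∈ Submodule.span E {a, b}) :
    cyc K (gen a' b') = cyc K (gen a b) := by
  obtain ⟨x, y, hxy⟩ := Submodule.mem_span_pair.1 ha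
  obtain ⟨z, w, hzw⟩ := Submodule.mem_span_pair.1 hb
  have hdet : x * w - y * z ≠ 0 := by
    intro h0
    rw [LinearIndependent.pair_iff] at h'
    have e1 : w • a' + (-y) • b' = 0 := by
      rw [← hxy, ← hzw]
      funext i
      simp only [Pi.add_apply, Pi.smul_apply, smul_eq_mul, Pi.zero_apply]
      linear_combination (a i) * h0
    have e2 : z • a' + (-x) • b' = 0 := by
      rw [← hxy, ← hzw]
      funext i
      simp only [Pi.add_apply, Pi.smul_apply, smul_eq_mul, Pi.zero_apply]
      linear_combination (-(b i)) * h0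
    have hw := h' w (-y) e1
    have hz := h' z (-x) e2
    have h1 : a' = 0 := by
      rw [← hxy, neg_eq_zero.1 hz.2, neg_eq_zero.1 hw.2, zero_smul, zero_smul, add_zero]
    have := h' 1 0 (by rw [h1, smul_zero, zero_smul, add_zero])
    exact one_ne_zero this.1
  set C : E →+* RatFunc E := algebraMap E (RatFunc E) with hC
  have hinj : Function.Injective C := (algebraMap E (RatFunc E)).injective
  have htr : Transcendental E (RatFunc.X : RatFunc E) := RatFunc.transcendental_X
  have hlin : ∀ s t : E, C s + C t * RatFunc.X = 0 → s = 0 ∧ t = 0 := by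
    intro s t h0
    by_cases ht : t = 0
    · refine ⟨?_, ht⟩
      rw [ht, map_zero, zero_mul, add_zero, map_eq_zero] at h0
      exact h0
    · exfalso
      apply htr
      have h1 : (RatFunc.X : RatFunc E) = C (-s / t) := by
        have ht' : C t ≠ 0 := by rwa [Ne, map_eq_zero]
        rw [map_div₀, map_neg, eq_div_iff ht']
        linear_combination h0
      rw [h1]
      exact isAlgebraic_algebraMap _
  have hd : C x + C z * RatFunc.X ≠ 0 := by
    intro h0
    obtain ⟨h1, h2⟩ := hlin x z h0
    apply hdet
    rw [h1, h2]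
    ring
  obtain ⟨θ, hθ⟩ : ∃ θ, θ = (C y + C w * RatFunc.X) / (C x + C z * RatFunc.X) := ⟨_, rfl⟩
  have hθ1 : θ * (C x + C z * RatFunc.X) = C y + C w * RatFunc.X := by
    rw [hθ, div_mul_cancel₀ _ hd]
  have hd2 : C w - C z * θ ≠ 0 := by
    intro h0
    have h1 : C (x * w - y * z) = 0 := by
      rw [map_sub, map_mul, map_mul]
      linear_combination (C x + C z * RatFunc.X) * h0 + C z * hθ1
    rw [map_eq_zero] at h1
    exact hdet h1
  have hX : (RatFunc.X : RatFunc E) = (C x * θ - C y) / (C w - C z * θ) := by
    rw [eq_div_iff hd2]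
    linear_combination -hθ1
  have hθt : Transcendental E θ := by
    intro halg
    apply htr
    rw [hX, div_eq_mul_inv]
    have hc : ∀ c : E, IsAlgebraic E (C c) := fun c => isAlgebraic_algebraMap c
    exact (((hc x).mul halg).sub (hc y)).mul (((hc w).sub ((hc z).mul halg)).inv)
  have hθg : IntermediateField.adjoin E {θ} = ⊤ := by
    rw [eq_top_iff, ← RatFunc.adjoin_X (K := E), IntermediateField.adjoin_simple_le_iff, hX]
    have h1 : θ ∈ IntermediateField.adjoin E {θ} := IntermediateField.mem_adjoin_simple_self E θ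
    have hc : ∀ c : E, C c ∈ IntermediateField.adjoin E {θ} := fun c =>
      (IntermediateField.adjoin E {θ}).algebraMap_mem c
    exact div_mem (sub_mem (mul_mem (hc x) h1) (hc y)) (sub_mem (hc w) (mul_mem (hc z) h1))
  rw [← cyc_gen θ hθt hθg a b, ← cyc_scale (fun i => algebraMap E (RatFunc E) (a i) +
    θ * algebraMap E (RatFunc E) (b i)) (C x + C z * RatFunc.X) hd]
  congr 1
  funext i
  unfold gen
  rw [← hxy, ← hzw]
  simp only [Pi.add_apply, Pi.smul_apply, smul_eq_mul, map_add, map_mul]
  rw [← hC]
  linear_combination (-(C (b i))) * hθ1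

section

attribute [local instance] Polynomial.algebra

open scoped RatFunc

theorem finrank_ratFunc (F F' : Type) [Field F] [Field F'] [Algebra F F'] :
    Module.finrank (RatFunc F) (RatFunc F') = Module.finrank F F' := by
  rw [IsFractionRing.finrank_eq (Polynomial F) (RatFunc F) (Polynomial F') (RatFunc F')]
  unfold Module.finrank
  rw [rank_polynomial_polynomial]

/-- (5) -/
theorem cyc_line_ext {E' : Type} [Field E'] [Algebra K E'] [Algebra E E'] [IsScalarTower K E E'] (a b : ι → E) :
    cyc K (gen (fun i => algebraMap E E' (a i)) (fun i => algebraMap E E' (b i))) =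
      Module.finrank E E' • cyc K (gen a b) := by
  rw [← finrank_ratFunc E E']
  have hC : ∀ c : E, algebraMap (RatFunc E) (RatFunc E') (algebraMap E (RatFunc E) c) =
      algebraMap E' (RatFunc E') (algebraMap E E' c) := by
    intro c
    rw [IsScalarTower.algebraMap_apply E (Polynomial E) (RatFunc E),
      ← IsScalarTower.algebraMap_apply (Polynomial E) (RatFunc E) (RatFunc E'),
      IsScalarTower.algebraMap_apply (Polynomial E) (Polynomial E') (RatFunc E'),
      IsScalarTower.algebraMap_apply E' (Polynomial E') (RatFunc E')]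
    congr 1
    rw [Polynomial.algebraMap_eq, Polynomial.algebraMap_eq, Polynomial.algebraMap_def]
    simp
  have hX : algebraMap (RatFunc E) (RatFunc E') RatFunc.X = RatFunc.X := by
    rw [← RatFunc.algebraMap_X, ← IsScalarTower.algebraMap_apply (Polynomial E) (RatFunc E) (RatFunc E'),
      IsScalarTower.algebraMap_apply (Polynomial E) (Polynomial E') (RatFunc E'), ← RatFunc.algebraMap_X]
    congr 1
    rw [Polynomial.algebraMap_def]
    simp
  have htow : @IsScalarTower K (RatFunc E) (RatFunc E') Algebra.toSMul Algebra.toSMul Algebra.toSMul := by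
    refine IsScalarTower.of_algebraMap_eq (R := K) (S := RatFunc E) (A := RatFunc E') fun c => ?_
    rw [IsScalarTower.algebraMap_apply K E' (RatFunc E'), IsScalarTower.algebraMap_apply K E (RatFunc E), hC,
      IsScalarTower.algebraMap_apply K E E']
  have key := cyc_finite (k := K) (E := RatFunc E) (E' := RatFunc E') (gen a b)
  rw [← key]
  congr 1
  funext i
  unfold gen
  rw [map_add, map_mul, hC, hC, hX]

end

end

theorem t_CYC2 : Pool.Agent.Z15.J.Stm.T_CYC2 := by
  intro K _ _ ι E _ _ _
  refine ⟨fun P c hc => cyc_scale P c hc, fun E' _ _ φ hφ P => cyc_equiv φ hφ P,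
    fun E' _ _ _ _ P => cyc_finite P, fun P h => cyc_fin P h, fun E' _ _ _ _ a b => cyc_line_ext a b,
    fun h p => cyc_const' h p, fun a b a' b' _ h' ha hb => cyc_span a b a' b' h' ha hb,
    fun M _ _ _ _ θ hθ hθ' a b => cyc_gen θ hθ hθ' a b⟩

end Pool.Agent.T2h99.J
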