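import Pool.Agent.T2h99.J.Cyc2
import Pool.Agent.T2h99.J.Abh
import Pool.Agent.Helper386.D5V.Helper386_FF_RR

/-!
Finiteness of the divisor of a function: `T_FIN`.
-/

set_option autoImplicit false

open FF MvPolynomial Pool.Agent.Z15.H Pool.Agent.Z15.J

namespace Pool.Agent.T2h99.J

theorem trdeg_adjoin {K M : Type} [Field K] [Field M] [Algebra K M] {l : ℕ} {U : Fin l → M}
    (hU : AlgebraicIndependent K U) : Algebra.trdeg K (IntermediateField.adjoin K (Set.range U)) = l := by
  set L := IntermediateField.adjoin K (Set.range U) with hL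
  have hmem : ∀ m, U m ∈ L := fun m => IntermediateField.subset_adjoin _ _ ⟨m, rfl⟩
  set U' : Fin l → L := fun m => ⟨U m, hmem m⟩ with hU'
  have h1 : AlgebraicIndependent K U' := by
    apply AlgebraicIndependent.of_comp L.val
    exact hU
  have h2 : IntermediateField.adjoin K (Set.range U') = ⊤ := by
    rw [eq_top_iff]
    intro x _
    obtain ⟨r, s, hrs⟩ := (IntermediateField.mem_adjoin_range_iff K U (x : M)).1 x.2
    refine (IntermediateField.mem_adjoin_range_iff K U' x).2 ⟨r, s, ?_⟩
    apply Subtype.ext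
    have hc : ∀ p : MvPolynomial (Fin l) K, ((aeval U' p : L) : M) = aeval U p := by
      intro p
      have := comp_aeval_apply (φ := L.val) U' p
      exact this
    rw [IntermediateField.coe_div, hc, hc, hrs]
  have h3 : IsTranscendenceBasis K U' := by
    rw [isTranscendenceBasis_iff_algebraicIndependent_isAlgebraic]
    refine ⟨h1, ?_⟩
    open scoped IntermediateField.algebraAdjoinAdjoin in
    have h4 : Algebra.IsAlgebraic (Algebra.adjoin K (Set.range U')) (IntermediateField.adjoin K (Set.range U')) :=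
      inferInstance
    have h5 : Algebra.IsAlgebraic (IntermediateField.adjoin K (Set.range U')) L := by
      refine ⟨fun x => ?_⟩
      have hx : x ∈ IntermediateField.adjoin K (Set.range U') := by rw [h2]; trivial
      exact isAlgebraic_algebraMap (⟨x, hx⟩ : IntermediateField.adjoin K (Set.range U'))
    open scoped IntermediateField.algebraAdjoinAdjoin in
    exact Algebra.IsAlgebraic.trans (Algebra.adjoin K (Set.range U')) (IntermediateField.adjoin K (Set.range U')) L
  rw [← h3.cardinalMk_eq_trdeg, Cardinal.mk_fin]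

theorem fin_aux {K M : Type} [Field K] [CharZero K] [Field M] [Algebra K M] {l : ℕ} (hM : IsFG (l + 1) K M)
    (h : M) (U : Fin l → M) :
    {v : Place K M | v.ord h ≠ 0 ∧ (∀ m, v.Reg (U m)) ∧ AlgebraicIndependent K fun m => v.red (U m)}.Finite := by
  rcases Set.eq_empty_or_nonempty {v : Place K M | v.ord h ≠ 0 ∧ (∀ m, v.Reg (U m)) ∧
    AlgebraicIndependent K fun m => v.red (U m)} with h0 | ⟨v0, _, h1, h2⟩
  · rw [h0]
    exact Set.finite_empty
  · have hU := lift_indep v0 h1 h2
    set L := IntermediateField.adjoin K (Set.range U) with hL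
    have ht : Algebra.trdeg K L = l := trdeg_adjoin hU
    have hFF : IsFF L M := by
      constructor
      · have := hM.1
        exact Algebra.EssFiniteType.of_comp K L M
      · have h3 := trdeg_add_eq K L (A := M)
        rw [ht, hM.2, Nat.cast_add, Nat.cast_one] at h3
        rw [add_comm, add_comm (l : Cardinal)] at h3
        exact (Cardinal.add_right_inj_of_lt_aleph0 (Cardinal.natCast_lt_aleph0 (n := l))).1 h3
    have hc : CharZero L := charZero_of_injective_algebraMap (algebraMap K L).injective
    have hfin : ((fun w : Place L M => w.ord) '' {w : Place L M | w.ord h ≠ 0}).Finite :=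
      (finite_support (k := L) h).image _
    refine Set.Finite.of_finite_image (f := fun v : Place K M => v.ord) (hfin.subset ?_) ?_
    · rintro _ ⟨v, ⟨hv0, hv1, hv2⟩, rfl⟩
      exact ⟨upPlace v L (ord_lift v hv1 hv2), hv0, rfl⟩
    · intro v _ w _ hvw
      exact Place.ext hvw

theorem t_FIN : Pool.Agent.Z15.J.Stm.T_FIN := by
  intro K _ _ ι M _ _ _ l hM Q h R hR _
  have hfin : (⋃ f : Fin l → ι × ι, {v : Place K M | v.ord h ≠ 0 ∧
      (∀ m, v.Reg (Q (f m).1 / Q (f m).2)) ∧
      AlgebraicIndependent K fun m => v.red (Q (f m).1 / Q (f m).2)}).Finite :=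
    Set.finite_iUnion fun f => fin_aux hM h _
  refine hfin.subset ?_
  rintro v ⟨hv1, hv2, hv3⟩
  obtain ⟨hR0, c, hc0, hc⟩ := hR v
  have halg := (cyc_fin (R v) hv3).2
  -- a transcendence basis consisting of ratios
  have halg2 : Algebra.IsAlgebraic (Algebra.adjoin K {z : v.RF | ∃ i j, z = R v i / R v j}) v.RF := by
    have h5 : Algebra.IsAlgebraic (IntermediateField.adjoin K {z : v.RF | ∃ i j, z = R v i / R v j}) v.RF :=
      halg
    open scoped IntermediateField.algebraAdjoinAdjoin in
    have h4 : Algebra.IsAlgebraic (Algebra.adjoin K {z : v.RF | ∃ i j, z = R v i / R v j})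
        (IntermediateField.adjoin K {z : v.RF | ∃ i j, z = R v i / R v j}) := inferInstance
    open scoped IntermediateField.algebraAdjoinAdjoin in
    exact Algebra.IsAlgebraic.trans (Algebra.adjoin K {z : v.RF | ∃ i j, z = R v i / R v j})
      (IntermediateField.adjoin K {z : v.RF | ∃ i j, z = R v i / R v j}) v.RF
  obtain ⟨s, hs, hb⟩ := exists_isTranscendenceBasis_subset (R := K) {z : v.RF | ∃ i j, z = R v i / R v j}
  have hcard : Cardinal.mk (Fin l) = Cardinal.mk s := by
    rw [Cardinal.mk_fin, hb.cardinalMk_eq_trdeg, hv1]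
  obtain ⟨e⟩ := Cardinal.eq.1 hcard
  choose i j hij using fun m => hs (e m).2
  have hind : AlgebraicIndependent K fun m => ((e m : s) : v.RF) := hb.1.comp e e.injective
  have hj : ∀ m, R v (j m) ≠ 0 := by
    intro m h0
    have h1 : ((e m : s) : v.RF) = 0 := by rw [hij m, h0, div_zero]
    exact hind.ne_zero m h1
  have hq : ∀ m, v.Reg (Q (i m) / Q (j m)) ∧ v.red (Q (i m) / Q (j m)) = ((e m : s) : v.RF) := by
    intro m
    have h1 := hc (j m)
    have h2 := ord_zero_of_red v h1.1 (by rw [h1.2]; exact hj m)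
    have hQj : Q (j m) ≠ 0 := right_ne_zero_of_mul h2.1
    have h3 : Q (i m) / Q (j m) = (c * Q (i m)) * (c * Q (j m))⁻¹ := by
      field_simp
    have h4 : v.Reg (c * Q (j m))⁻¹ := Or.inr (by rw [v.ord_inv, h2.2, neg_zero])
    have h5 : v.red (c * Q (j m))⁻¹ = (R v (j m))⁻¹ := by
      have h6 : v.red ((c * Q (j m)) * (c * Q (j m))⁻¹) = 1 := by
        rw [mul_inv_cancel₀ h2.1, v.red_one]
      rw [v.red_mul h1.1 h4, h1.2] at h6
      exact eq_inv_of_mul_eq_one_right h6
    rw [h3, hij m, div_eq_mul_inv]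
    refine ⟨v.reg_mul (hc (i m)).1 h4, ?_⟩
    rw [v.red_mul (hc (i m)).1 h4, (hc (i m)).2, h5]
  refine Set.mem_iUnion.2 ⟨fun m => (i m, j m), hv2, fun m => (hq m).1, ?_⟩
  have : (fun m => v.red (Q (i m) / Q (j m))) = fun m => ((e m : s) : v.RF) := funext fun m => (hq m).2
  show AlgebraicIndependent K fun m => v.red (Q (i m) / Q (j m))
  rw [this]
  exact hind

end Pool.Agent.T2h99.J
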