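import Pool.Agent.Z15.J.Stm2

/-!
The statements `T_TR`, `T_U`, `T_CONE` for homogeneous polynomials `G`.
-/

set_option autoImplicit false

open FF MvPolynomial Pool.Agent.Z15.H Pool.Agent.Z15.J Pool.Agent.Z15.J.Stm

namespace Pool.Agent.T2h99.J

def T_TRh : Prop :=
  ∀ (K0 K1 : Type) [Field K0] [Field K1] [Algebra K0 K1] [CharZero K0] (ι ν : Type) [Fintype ι]
    [Fintype ν] (δ q : ℕ), IsFG δ K0 K1 → ∀ (F : MvPolynomial ι K0) (G : MvPolynomial ν K1) (d : ℕ),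
    G.IsHomogeneous d → ∀ (z : ι → K1) (φ : ν → ι → K1), z ≠ 0 → Good F G z φ →
    ∀ (Φ : (Set (MvPolynomial ν K1) →₀ ℤ) →+ (Set (MvPolynomial ι K0) →₀ ℤ)), IsFamMap z φ Φ →
    ∀ (M : Type) [Field M] [Algebra K1 M] (Q : ν → M) (h : M) (D : Set (MvPolynomial ν K1) →₀ ℤ),
      IsFG (q + 1) K1 M → Q ≠ 0 → aeval Q G = 0 → h ≠ 0 → IsDivisor K1 q Q h D →
      Φ D ∈ Rat K0 (q + δ + 1) F ⊔ AddSubgroup.closure (VT K0 (q + δ) G z φ)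

def T_Uh : Prop :=
  ∀ (K0 K1 : Type) [Field K0] [Field K1] [Algebra K0 K1] [CharZero K0] (ι ν : Type) [Fintype ι]
    [Fintype ν] (δ q : ℕ), IsFG δ K0 K1 → ∀ (F : MvPolynomial ι K0) (G : MvPolynomial ν K1) (d : ℕ),
    G.IsHomogeneous d → ∀ (z : ι → K1) (φ : ν → ι → K1), z ≠ 0 → Good F G z φ →
    ∀ (Φ : (Set (MvPolynomial ν K1) →₀ ℤ) →+ (Set (MvPolynomial ι K0) →₀ ℤ)), IsFamMap z φ Φ →
    ∀ D ∈ Rat K1 q G, Φ D ∈ Rat K0 (q + δ + 1) F ⊔ AddSubgroup.closure (VT K0 (q + δ) G z φ)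

/-- cones with a constant vertex -/
def T_CONEh : Prop :=
  ∀ (K : Type) [Field K] [CharZero K] (ι ν : Type) [Fintype ι] [Fintype ν] (q : ℕ)
    (F : MvPolynomial ι K) (G : MvPolynomial ν K) (d : ℕ), G.IsHomogeneous d →
    ∀ (z : ι → K) (φ : ν → ι → K), z ≠ 0 → Good F G z φ →
    ∀ (Φ : (Set (MvPolynomial ν K) →₀ ℤ) →+ (Set (MvPolynomial ι K) →₀ ℤ)), IsFamMap z φ Φ →
    ∀ D ∈ Rat K q G, Φ D ∈ Rat K (q + 1) F

end Pool.Agent.T2h99.J
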