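import Pool.Agent.T2h99.J.Cyc2

/-!
The class of a family of lines depends only on the class of the parameter: `T_WD`.
-/

set_option autoImplicit false

open FF MvPolynomial Pool.Agent.Z15.H Pool.Agent.Z15.J Pool.Agent.T2h64.H15 Pool.Agent.Z15.J.Stm

namespace Pool.Agent.T2h99.J

theorem mem_locus_homog {K κ ν : Type} [Field K] [Field κ] [Algebra K κ] (e : ν → κ) {H : MvPolynomial ν K}
    {N : ℕ} (hH : H.IsHomogeneous N) : H ∈ locus K e ↔ aeval e H = 0 := by
  constructor
  · intro h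
    have := h N
    rwa [homogeneousComponent_eq_self hH] at this
  · intro h n
    rw [homogeneousComponent_of_mem (m := n) (n := N) hH]
    split_ifs
    · exact h
    · exact map_zero _

/-- homogenization -/
noncomputable def hmg {K ν : Type} [Field K] (j : ν) (G : MvPolynomial ν K) : MvPolynomial ν K :=
  ∑ n ∈ Finset.range (G.totalDegree + 1), X j ^ (G.totalDegree - n) * homogeneousComponent n G

theorem hmg_homog {K ν : Type} [Field K] (j : ν) (G : MvPolynomial ν K) :
    (hmg j G).IsHomogeneous G.totalDegree := by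
  unfold hmg
  apply IsHomogeneous.sum
  intro n hn
  have hn' := Finset.mem_range.1 hn
  have h1 : (X j ^ (G.totalDegree - n) * homogeneousComponent n G : MvPolynomial ν K).IsHomogeneous
      (1 * (G.totalDegree - n) + n) :=
    ((isHomogeneous_X K j).pow _).mul (homogeneousComponent_isHomogeneous n G)
  have h2 : 1 * (G.totalDegree - n) + n = G.totalDegree := by omega
  rwa [h2] at h1

theorem aeval_hmg {K κ ν : Type} [Field K] [Field κ] [Algebra K κ] (e : ν → κ) (j : ν) (hj : e j = 1)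
    (G : MvPolynomial ν K) : aeval e (hmg j G) = aeval e G := by
  unfold hmg
  rw [map_sum]
  conv_rhs => rw [← sum_homogeneousComponent G, map_sum]
  refine Finset.sum_congr rfl fun n _ => ?_
  rw [map_mul, map_pow, aeval_X, hj, one_pow, one_mul]

theorem ker_eq {K κ κ' ν : Type} [Field K] [Field κ] [Algebra K κ] [Field κ'] [Algebra K κ'] (e : ν → κ)
    (e' : ν → κ') (j : ν) (hj : e j = 1) (hj' : e' j = 1) (h : locus K e = locus K e')
    (G : MvPolynomial ν K) : aeval e G = 0 ↔ aeval e' G = 0 := by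
  rw [← aeval_hmg e j hj, ← aeval_hmg e' j hj', ← mem_locus_homog e (hmg_homog j G),
    ← mem_locus_homog e' (hmg_homog j G), h]

theorem exists_iso {K κ κ' ν : Type} [Field K] [Field κ] [Algebra K κ] [Field κ'] [Algebra K κ']
    (e : ν → κ) (e' : ν → κ') (he : IntermediateField.adjoin K (Set.range e) = ⊤)
    (h : ∀ G : MvPolynomial ν K, aeval e G = 0 ↔ aeval e' G = 0) :
    ∃ ψ : κ →ₐ[K] κ', ∀ i, ψ (e i) = e' i := by
  set f : MvPolynomial ν K →ₐ[K] (aeval (R := K) e).range := (aeval e).rangeRestrict with hfd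
  have hf : Function.Surjective f := AlgHom.rangeRestrict_surjective _
  have hfz : ∀ G, f G = 0 ↔ aeval e G = 0 := by
    intro G
    rw [← Subtype.coe_inj]
    rfl
  have hker : RingHom.ker f.toRingHom ≤ RingHom.ker (aeval (R := K) e').toRingHom := by
    intro G hG
    have h1 : f G = 0 := hG
    exact (h G).1 ((hfz G).1 h1)
  set g : (aeval (R := K) e).range →ₐ[K] κ' := AlgHom.liftOfSurjective f hf (aeval e') hker with hgd
  have hg : ∀ G, g (f G) = aeval e' G := fun G => AlgHom.liftOfSurjective_apply f hf (aeval e') hker G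
  have hginj : Function.Injective g := by
    rw [injective_iff_map_eq_zero]
    intro x hx
    obtain ⟨G, rfl⟩ := hf x
    rw [hg] at hx
    exact (hfz G).2 ((h G).2 hx)
  have hfrac : IsFractionRing (aeval (R := K) e).range κ := by
    refine IsFractionRing.of_field _ _ fun z => ?_
    have hz : z ∈ IntermediateField.adjoin K (Set.range e) := by rw [he]; trivial
    obtain ⟨r, s, hrs⟩ := (IntermediateField.mem_adjoin_range_iff K e z).1 hz
    exact ⟨f r, f s, hrs⟩
  refine ⟨IsFractionRing.liftAlgHom hginj, fun i => ?_⟩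
  have h1 : e i = algebraMap (aeval (R := K) e).range κ (f (X i)) := by
    show e i = aeval e (X i)
    rw [aeval_X]
  rw [h1, IsFractionRing.coe_liftAlgHom, IsFractionRing.lift_algebraMap]
  show g (f (X i)) = e' i
  rw [hg, aeval_X]

/-- scaling of the second point of a line -/
theorem cyc_gen_scale {K E ι : Type} [Field K] [Field E] [Algebra K E] (a b : ι → E) (c : E) (hc : c ≠ 0) :
    cyc K (gen a (fun i => c * b i)) = cyc K (gen a b) := by
  set C : E →+* RatFunc E := algebraMap E (RatFunc E) with hC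
  have hc' : C c ≠ 0 := by rwa [Ne, map_eq_zero]
  have hX : (RatFunc.X : RatFunc E) = (C c)⁻¹ * (C c * RatFunc.X) := by
    rw [← mul_assoc, inv_mul_cancel₀ hc', one_mul]
  have hθt : Transcendental E (C c * RatFunc.X) := by
    intro halg
    apply RatFunc.transcendental_X (K := E)
    have hcA : IsAlgebraic E (C c) := isAlgebraic_algebraMap c
    have h1 := hcA.inv.mul halg
    rwa [← hX] at h1
  have hθg : IntermediateField.adjoin E {C c * RatFunc.X} = ⊤ := by
    rw [eq_top_iff, ← RatFunc.adjoin_X (K := E), IntermediateField.adjoin_simple_le_iff]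
    have h1 : C c * RatFunc.X ∈ IntermediateField.adjoin E {C c * RatFunc.X} :=
      IntermediateField.mem_adjoin_simple_self E _
    have h2 := mul_mem (inv_mem ((IntermediateField.adjoin E {C c * RatFunc.X}).algebraMap_mem c)) h1
    rw [← hC, ← hX] at h2
    exact h2
  rw [← cyc_gen _ hθt hθg a b]
  congr 1
  funext i
  unfold gen
  rw [map_mul, ← hC]
  ring

section

variable {K0 K1 : Type} [Field K0] [Field K1] [Algebra K0 K1] {ι ν : Type} [Fintype ν]

theorem lm_map {κ κ' : Type} [Field κ] [Algebra K1 κ] [Field κ'] [Algebra K1 κ'] (ψ : κ →ₐ[K1] κ')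
    (φ : ν → ι → K1) (e : ν → κ) (i : ι) : ψ (lm φ e i) = lm φ (fun j => ψ (e j)) i := by
  unfold lm
  rw [map_sum]
  refine Finset.sum_congr rfl fun j _ => ?_
  rw [map_mul, ψ.commutes]

theorem lm_scale {κ : Type} [Field κ] [Algebra K1 κ] (φ : ν → ι → K1) (e : ν → κ) (c : κ) (i : ι) :
    lm φ (fun j => c * e j) i = c * lm φ e i := by
  unfold lm
  rw [Finset.mul_sum]
  refine Finset.sum_congr rfl fun j _ => ?_
  ring

theorem fam_scale {κ : Type} [Field κ] [Algebra K1 κ] [Algebra K0 κ] [IsScalarTower K0 K1 κ] (z : ι → K1)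
    (φ : ν → ι → K1) (e : ν → κ) (c : κ) (hc : c ≠ 0) :
    cyc K0 (gen (cst κ z) (lm φ (fun j => c * e j))) = cyc K0 (gen (cst κ z) (lm φ e)) := by
  rw [← cyc_gen_scale (cst κ z) (lm φ e) c hc]
  congr 2
  funext i
  exact lm_scale φ e c i

theorem fam_ext {κ κ' : Type} [Field κ] [Algebra K1 κ] [Algebra K0 κ] [IsScalarTower K0 K1 κ] [Field κ']
    [Algebra K1 κ'] [Algebra K0 κ'] [IsScalarTower K0 K1 κ'] [Algebra κ κ'] [IsScalarTower K1 κ κ']
    [IsScalarTower K0 κ κ'] (z : ι → K1) (φ : ν → ι → K1) (e : ν → κ) :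
    cyc K0 (gen (cst κ' z) (lm φ (fun j => algebraMap κ κ' (e j)))) =
      Module.finrank κ κ' • cyc K0 (gen (cst κ z) (lm φ e)) := by
  rw [← cyc_line_ext]
  congr 2
  · funext i
    exact IsScalarTower.algebraMap_apply K1 κ κ' (z i)
  · funext i
    exact (lm_map (IsScalarTower.toAlgHom K1 κ κ') φ e i).symm

omit [Fintype ν] in
theorem locus_ne {κ κ' : Type} [Field κ] [Algebra K1 κ] [Field κ'] [Algebra K1 κ'] {e : ν → κ} {e' : ν → κ'}
    (h : locus K1 e = locus K1 e') (j : ν) (hj : e j ≠ 0) : e' j ≠ 0 := by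
  intro h0
  apply hj
  have h1 : (X j : MvPolynomial ν K1) ∈ locus K1 e' := by
    rw [mem_locus_homog e' (isHomogeneous_X K1 j), aeval_X, h0]
  rw [← h, mem_locus_homog e (isHomogeneous_X K1 j), aeval_X] at h1
  exact h1

omit [Fintype ν] in
theorem adjoin_top {κ : Type} [Field κ] [Algebra K1 κ] (e : ν → κ) (h : ratioField K1 e = ⊤) :
    IntermediateField.adjoin K1 (Set.range e) = ⊤ := by
  rw [eq_top_iff, ← h]
  unfold ratioField
  rw [IntermediateField.adjoin_le_iff]
  rintro _ ⟨i, j, rfl⟩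
  exact div_mem (IntermediateField.subset_adjoin _ _ ⟨i, rfl⟩) (IntermediateField.subset_adjoin _ _ ⟨j, rfl⟩)

/-- the class depends only on the locus if the ratio field is everything -/
theorem fam_unique {κ κ' : Type} [Field κ] [Algebra K1 κ] [Algebra K0 κ] [IsScalarTower K0 K1 κ] [Field κ']
    [Algebra K1 κ'] [Algebra K0 κ'] [IsScalarTower K0 K1 κ'] (z : ι → K1) (φ : ν → ι → K1) (e : ν → κ)
    (e' : ν → κ') (he : e ≠ 0) (hl : locus K1 e = locus K1 e') (hr : ratioField K1 e = ⊤)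
    (hr' : ratioField K1 e' = ⊤) :
    cyc K0 (gen (cst κ z) (lm φ e)) = cyc K0 (gen (cst κ' z) (lm φ e')) := by
  obtain ⟨j, hj⟩ : ∃ j, e j ≠ 0 := by
    by_contra hn
    push Not at hn
    exact he (funext hn)
  have hj' : e' j ≠ 0 := locus_ne hl j hj
  -- normalization
  rw [← fam_scale z φ e (e j)⁻¹ (inv_ne_zero hj), ← fam_scale z φ e' (e' j)⁻¹ (inv_ne_zero hj')]
  obtain ⟨e1, he1⟩ : ∃ e1 : ν → κ, e1 = fun i => (e j)⁻¹ * e i := ⟨_, rfl⟩
  obtain ⟨e1', he1'⟩ : ∃ e1' : ν → κ', e1' = fun i => (e' j)⁻¹ * e' i := ⟨_, rfl⟩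
  rw [← he1, ← he1']
  have hl1 : locus K1 e1 = locus K1 e1' := by
    rw [he1, he1', locus_scale e _ (inv_ne_zero hj), locus_scale e' _ (inv_ne_zero hj'), hl]
  have hr1 : ratioField K1 e1 = ⊤ := by rw [he1, ratio_scale e _ (inv_ne_zero hj), hr]
  have hr1' : ratioField K1 e1' = ⊤ := by rw [he1', ratio_scale e' _ (inv_ne_zero hj'), hr']
  have hj1 : e1 j = 1 := by rw [he1]; exact inv_mul_cancel₀ hj
  have hj1' : e1' j = 1 := by rw [he1']; exact inv_mul_cancel₀ hj'
  obtain ⟨ψ, hψ⟩ := exists_iso e1 e1' (adjoin_top e1 hr1) (ker_eq e1 e1' j hj1 hj1' hl1)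
  have hψs : Function.Surjective ψ := by
    intro y
    have hy : y ∈ IntermediateField.adjoin K1 (Set.range e1') := by rw [adjoin_top e1' hr1']; trivial
    obtain ⟨r, s, hrs⟩ := (IntermediateField.mem_adjoin_range_iff K1 e1' y).1 hy
    refine ⟨aeval e1 r / aeval e1 s, ?_⟩
    rw [map_div₀, hrs]
    have hc : ∀ G : MvPolynomial ν K1, ψ (aeval e1 G) = aeval e1' G := by
      intro G
      rw [comp_aeval_apply (φ := ψ)]
      congr 1
      congr 1
      funext i
      exact hψ i
    rw [hc, hc]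
  let _ : Algebra κ κ' := ψ.toRingHom.toAlgebra
  have : IsScalarTower K1 κ κ' := IsScalarTower.of_algebraMap_eq fun x => (ψ.commutes x).symm
  have : IsScalarTower K0 κ κ' := IsScalarTower.of_algebraMap_eq fun x => by
    rw [IsScalarTower.algebraMap_apply K0 K1 κ', IsScalarTower.algebraMap_apply K0 K1 κ,
      ← IsScalarTower.algebraMap_apply K1 κ κ']
  have h1 : Module.finrank κ κ' = 1 := by
    have h2 := Algebra.finrank_eq_of_equiv_equiv (RingEquiv.refl κ)
      (RingEquiv.ofBijective ψ.toRingHom ⟨ψ.toRingHom.injective, hψs⟩) (by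
        ext x
        rfl)
    rw [← h2, Module.finrank_self]
  have h2 := fam_ext (K0 := K0) (κ' := κ') z φ e1
  rw [h1, one_smul] at h2
  rw [← h2]
  congr 3
  funext i
  exact hψ i

/-- a representative over the ratio field -/
theorem fam_rep {κ : Type} [Field κ] [Algebra K1 κ] [Algebra K0 κ] [IsScalarTower K0 K1 κ] (z : ι → K1)
    (φ : ν → ι → K1) (e : ν → κ) (he : e ≠ 0) :
    ∃ (e' : ν → ratioField K1 e), e' ≠ 0 ∧ locus K1 e' = locus K1 e ∧ ratioField K1 e' = ⊤ ∧
      cyc K0 (gen (cst κ z) (lm φ e)) =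
        Module.finrank (ratioField K1 e) κ • cyc K0 (gen (cst (ratioField K1 e) z) (lm φ e')) := by
  obtain ⟨j, hj⟩ : ∃ j, e j ≠ 0 := by
    by_contra hn
    push Not at hn
    exact he (funext hn)
  set R := ratioField K1 e with hR
  have hmem : ∀ i, (e j)⁻¹ * e i ∈ R := fun i => by
    rw [hR, inv_mul_eq_div]
    exact IntermediateField.subset_adjoin _ _ ⟨i, j, rfl⟩
  obtain ⟨e', he'⟩ : ∃ e' : ν → R, ∀ i, (e' i : κ) = (e j)⁻¹ * e i := ⟨fun i => ⟨_, hmem i⟩, fun i => rfl⟩
  have he'' : (fun i => algebraMap R κ (e' i)) = fun i => (e j)⁻¹ * e i := funext he'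
  have hloc : locus K1 e' = locus K1 e := by
    have h1 := locus_map (IsScalarTower.toAlgHom K1 R κ) e'
    rw [← h1, ← locus_scale e _ (inv_ne_zero hj)]
    congr 1
  have hrat : ratioField K1 e' = ⊤ := by
    have h1 := ratio_map (IsScalarTower.toAlgHom K1 R κ) e'
    have h2 : ratioField K1 (fun i => (IsScalarTower.toAlgHom K1 R κ) (e' i)) = R := by
      have h3 : (fun i => (IsScalarTower.toAlgHom K1 R κ) (e' i)) = fun i => (e j)⁻¹ * e i := funext he'
      rw [h3, ratio_scale e _ (inv_ne_zero hj)]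
    rw [h2] at h1
    rw [eq_top_iff]
    intro x _
    have hx : (x : κ) ∈ (ratioField K1 e').map (IsScalarTower.toAlgHom K1 R κ) := by
      rw [← h1]
      exact x.2
    obtain ⟨y, hy, hyx⟩ := hx
    have : y = x := Subtype.ext hyx
    rw [← this]
    exact hy
  have htow : IsScalarTower K0 R κ := IsScalarTower.of_algebraMap_eq fun x => rfl
  refine ⟨e', ?_, hloc, hrat, ?_⟩
  · intro h0
    have h1 := he' j
    rw [h0, inv_mul_cancel₀ hj] at h1
    exact zero_ne_one h1
  · rw [← fam_ext (K0 := K0) (κ' := κ) z φ e', ← fam_scale z φ e _ (inv_ne_zero hj), he'']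

end

theorem t_WD : T_WD := by
  classical
  intro K0 K1 _ _ _ _ ι ν _ _ z φ _
  -- the possible values
  let Pr : Set (MvPolynomial ν K1) → (Set (MvPolynomial ι K0) →₀ ℤ) → Prop := fun Z c =>
    ∃ (κ : Type) (_ : Field κ) (_ : Algebra K1 κ) (_ : Algebra K0 κ) (_ : IsScalarTower K0 K1 κ) (e : ν → κ),
      e ≠ 0 ∧ locus K1 e = Z ∧ ratioField K1 e = ⊤ ∧ c = cyc K0 (gen (cst κ z) (lm φ e))
  let Ψ : Set (MvPolynomial ν K1) → (Set (MvPolynomial ι K0) →₀ ℤ) := fun Z =>
    if h : ∃ c, Pr Z c then h.choose else 0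
  refine ⟨Finsupp.liftAddHom fun Z => zmultiplesHom _ (Ψ Z), ?_⟩
  intro κ _ _ _ _ e he
  obtain ⟨e', he', hl, hr, hc⟩ := fam_rep (K0 := K0) z φ e he
  have hex : ∃ c, Pr (locus K1 e) c :=
    ⟨_, ratioField K1 e, inferInstance, inferInstance, inferInstance, inferInstance, e', he', hl, hr, rfl⟩
  have hΨ : Ψ (locus K1 e) = cyc K0 (gen (cst (ratioField K1 e) z) (lm φ e')) := by
    have h1 : Ψ (locus K1 e) = hex.choose := dif_pos hex
    rw [h1]
    obtain ⟨κ2, _, _, _, _, e2, h2, h3, h4, h5⟩ := hex.choose_spec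
    rw [h5]
    exact fam_unique z φ e2 e' h2 (h3.trans hl.symm) h4 hr
  unfold cyc
  rw [Finsupp.liftAddHom_apply_single]
  show zmultiplesHom _ (Ψ (locus K1 e)) _ = cyc K0 (gen (cst κ z) (lm φ e))
  rw [hΨ, hc, zmultiplesHom_apply, natCast_zsmul]

end Pool.Agent.T2h99.J
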